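import Pool.Agent.Helper32.CL.St3

/-!
# Project CL (MP_b2fa09_gt): module EV (consequences for the energy of `W`)
-/

set_option autoImplicit false

namespace Pool.Agent.Helper89.CL

open Helper32.CL Helper35.PI Helper35.PI2 Pool.Agent.Helper35.CL
open scoped ContDiff Manifold Topology ENNReal BigOperators
open MeasureTheory Set Filter

private lemma slice_EV {M V : Type} [TopologicalSpace M] [TopologicalSpace V] {g : M → ℝ → V}
    (hg : CST g) {t : ℝ} (ht : t < 0) : Continuous fun q => g q t := by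
  have h1 : ContinuousOn (fun z : M × ℝ => g z.1 z.2) (univ ×ˢ Iio 0) := hg
  have h2 : Continuous fun q : M => (q, t) := by fun_prop
  exact h1.comp_continuous h2 fun q => ⟨mem_univ _, ht⟩

private lemma cst_smooth_EV : (cφ (fun _ => (0 : ℝ))).Smooth where
  sφ := contDiff_const
  s₁ := contDiff_const
  s₂ := contDiff_const
  s₃ := contDiff_const

private lemma arith1_EV {t I2 Iw Ig V R : ℝ} (ht : t ≤ -1) (hIw : 0 ≤ Iw) (hIg : 0 ≤ Ig)
    (hV : 0 ≤ V) (h1 : 4 * t ^ 2 * V ≤ 2 * (I2 + R ^ 2 * (-t) * Iw))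
    (h2 : I2 ≤ 4 * Iw * (4 * Ig + V)) (he : Iw / t ^ 2 ≤ 1 / 16) :
    V ≤ 4 / 7 * (Ig + R ^ 2 * (Iw / (-t))) := by
  have hτ : 0 < -t := by linarith
  have ht2 : 0 < t ^ 2 := by nlinarith
  have he' : Iw ≤ t ^ 2 / 16 := by
    rw [div_le_iff₀ ht2] at he
    linarith
  have h3 : 4 * Iw * (4 * Ig + V) ≤ 4 * (t ^ 2 / 16) * (4 * Ig + V) := by
    apply mul_le_mul_of_nonneg_right _ (by positivity)
    linarith
  have h4 : 7 / 2 * t ^ 2 * V ≤ 2 * t ^ 2 * Ig + 2 * R ^ 2 * (-t) * Iw := by nlinarith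
  have h5 : R ^ 2 * (Iw / (-t)) * t ^ 2 = R ^ 2 * (-t) * Iw := by
    field_simp
  have h6 : t ^ 2 * V ≤ t ^ 2 * (4 / 7 * (Ig + R ^ 2 * (Iw / (-t)))) := by nlinarith
  exact le_of_mul_le_mul_left h6 ht2

private lemma arith2_EV {t A W G V R : ℝ} (ht : t ≤ -1) (hW : 0 ≤ W) (hG : 0 ≤ G)
    (hA : A ≤ V - 2 * G) (hV : V ≤ 4 / 7 * (G + R ^ 2 * (W / (-t)))) :
    A / t ^ 2 - 2 * W / t ^ 3 ≤ -(G / t ^ 2) + (2 + R ^ 2) * (W / t ^ 2 / (-t)) := by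
  have hτ : 0 < -t := by linarith
  have ht0 : t ≠ 0 := by linarith
  have ht2 : 0 < t ^ 2 := by nlinarith
  obtain ⟨u, hu⟩ : ∃ u, u = W / (-t) := ⟨_, rfl⟩
  have hu0 : 0 ≤ u := by
    rw [hu]
    positivity
  have hW' : W = u * (-t) := by
    rw [hu]
    field_simp
  have h1 : 2 * W / t ^ 3 = -(2 * u) / t ^ 2 := by
    rw [hW']
    field_simp
  have h2 : W / t ^ 2 / (-t) = u / t ^ 2 := by
    rw [hW']
    field_simp
  have h3 : -(G / t ^ 2) + (2 + R ^ 2) * (u / t ^ 2) = (-G + (2 + R ^ 2) * u) / t ^ 2 := by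
    field_simp
  have h4 : A / t ^ 2 - -(2 * u) / t ^ 2 = (A + 2 * u) / t ^ 2 := by
    field_simp
    ring
  rw [h1, h2, h3, h4]
  apply div_le_div_of_nonneg_right _ ht2.le
  rw [← hu] at hV
  have h5 : 0 ≤ R ^ 2 * u := by positivity
  linarith

theorem hEV (hMU : StMU) (hMW : StMW) (hEW : StEW) (hGA : StGA) (hML : StML) (hCN : StCN) :
    StEV := by
  intro N M _ _ _ _ _ _ _ _ F c χ hS hpin R hR hF
  obtain ⟨hwC, hgC, hder⟩ := hEW N M F c χ hS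
  obtain ⟨_, hHC, hAC, _⟩ := hCN N M F hS.mcf
  obtain ⟨s, _, hs⟩ := hMU 2 N M F c χ hS
  have hI : ∀ t : ℝ, t < 0 → ∀ g : M → ℝ, Continuous g → Integrable g (muM 2 F c χ t) :=
    fun t ht g hg => ((hs t ht).2.2 g hg).1
  have hcw : ∀ t : ℝ, t < 0 → Continuous fun q => wF F q t := fun t ht => slice_EV hwC ht
  have hcg : ∀ t : ℝ, t < 0 → Continuous fun q => g1F F q t := fun t ht =>
    (hGA N M F hS.mcf t ht).1
  have hcH : ∀ t : ℝ, t < 0 → Continuous fun q => ‖HH (n := 2) F q t‖ ^ 2 := fun t ht =>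
    ((slice_EV hHC ht).norm).pow 2
  have hcA : ∀ t : ℝ, t < 0 → Continuous fun q => AA (n := 2) F q t := fun t ht =>
    slice_EV hAC ht
  have hcθ : ∀ t : ℝ, t < 0 → Continuous fun q => thF 2 F q t := fun t ht =>
    ((hcA t ht).const_mul 2).sub (hcH t ht)
  have hw0 : ∀ q t, 0 ≤ wF F q t := fun q t => by
    unfold wF
    positivity
  have hdE : ∀ t : ℝ, t < 0 →
      HasDerivAt (fun t => (∫ q, wF F q t ∂muM 2 F c χ t) / t ^ 2)
        ((∫ q, (thF 2 F q t * wF F q t - 2 * g1F F q t) ∂muM 2 F c χ t) / t ^ 2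
          - 2 * (∫ q, wF F q t ∂muM 2 F c χ t) / t ^ 3) t := by
    intro t ht
    have ht0 : t ≠ 0 := ht.ne
    have h1 := (hder t ht).div (hasDerivAt_pow 2 t) (pow_ne_zero 2 ht0)
    have h2 : ((∫ q, (thF 2 F q t * wF F q t - 2 * g1F F q t) ∂muM 2 F c χ t) / t ^ 2
          - 2 * (∫ q, wF F q t ∂muM 2 F c χ t) / t ^ 3) =
        ((∫ q, (thF 2 F q t * wF F q t - 2 * g1F F q t) ∂muM 2 F c χ t) * t ^ 2 -
          (∫ q, wF F q t ∂muM 2 F c χ t) * (((2 : ℕ) : ℝ) * t ^ (2 - 1))) / (t ^ 2) ^ 2 := by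
      field_simp
      norm_num
      ring
    rw [h2]
    exact h1
  refine ⟨fun t => (∫ q, wF F q t ∂muM 2 F c χ t) / t ^ 2,
    fun t => (∫ q, g1F F q t ∂muM 2 F c χ t) / t ^ 2,
    fun t => (∫ q, (thF 2 F q t * wF F q t - 2 * g1F F q t) ∂muM 2 F c χ t) / t ^ 2
          - 2 * (∫ q, wF F q t ∂muM 2 F c χ t) / t ^ 3, fun _ => rfl, fun _ => rfl, ?_, ?_, ?_⟩
  · intro t ht
    exact (hdE t ht).continuousAt.continuousWithinAt
  · exact hgC.div (by fun_prop) fun t ht => pow_ne_zero 2 (ne_of_lt ht)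
  intro t ht1
  have ht : t < 0 := by linarith
  have ht2 : 0 < t ^ 2 := by nlinarith
  have hτ : 0 < -t := by linarith
  have hIw : 0 ≤ ∫ q, wF F q t ∂muM 2 F c χ t := integral_nonneg fun q => hw0 q t
  have hIg : 0 ≤ ∫ q, g1F F q t ∂muM 2 F c χ t :=
    integral_nonneg fun q => ((hGA N M F hS.mcf t ht).2.2.2.1 q).1
  have hIV : 0 ≤ ∫ q, ‖HH (n := 2) F q t‖ ^ 2 * wF F q t ∂muM 2 F c χ t :=
    integral_nonneg fun q => mul_nonneg (by positivity) (hw0 q t)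
  refine ⟨div_nonneg hIw ht2.le, div_nonneg hIg ht2.le, hdE t ht, ?_⟩
  intro he
  have hpt : ∀ q, 4 * t ^ 2 * ‖HH (n := 2) F q t‖ ^ 2 ≤ 2 * (wF F q t + R ^ 2 * (-t)) := by
    intro q
    obtain ⟨hW, _, hW0⟩ := (hML 2 N M F hS.mcf 0 (-2 * t) _ cst_smooth_EV).2.2.2.2.2.2.2 q t ht
    have h1 : (-2 * t) • HH (n := 2) F q t = wvF 2 (-2 * t) F q t - wvF 2 0 F q t := by
      rw [hW]
      abel
    have h2 : ‖(-2 * t) • HH (n := 2) F q t‖ = (-2 * t) * ‖HH (n := 2) F q t‖ := by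
      rw [norm_smul, Real.norm_eq_abs, abs_of_nonneg (by linarith)]
    have h3 : (-2 * t) * ‖HH (n := 2) F q t‖ ≤ ‖wvF 2 (-2 * t) F q t‖ + ‖wvF 2 0 F q t‖ := by
      rw [← h2, h1]
      exact norm_sub_le _ _
    have h4 : ‖F q t‖ ≤ R * Real.sqrt (-t) := hF t ht1 q
    have h5 : ‖F q t‖ ^ 2 ≤ R ^ 2 * (-t) := by
      calc ‖F q t‖ ^ 2 ≤ (R * Real.sqrt (-t)) ^ 2 := by
            exact pow_le_pow_left₀ (norm_nonneg _) h4 2
        _ = R ^ 2 * (-t) := by rw [mul_pow, Real.sq_sqrt hτ.le]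
    have h6 : ‖wvF 2 0 F q t‖ ^ 2 ≤ ‖F q t‖ ^ 2 := pow_le_pow_left₀ (norm_nonneg _) hW0 2
    have h7 : ((-2 * t) * ‖HH (n := 2) F q t‖) ^ 2 ≤
        (‖wvF 2 (-2 * t) F q t‖ + ‖wvF 2 0 F q t‖) ^ 2 :=
      pow_le_pow_left₀ (mul_nonneg (by linarith) (norm_nonneg _)) h3 2
    have h8 : wF F q t = ‖wvF 2 (-2 * t) F q t‖ ^ 2 := rfl
    rw [h8]
    nlinarith [sq_nonneg (‖wvF 2 (-2 * t) F q t‖ - ‖wvF 2 0 F q t‖)]
  have h1 : 4 * t ^ 2 * (∫ q, ‖HH (n := 2) F q t‖ ^ 2 * wF F q t ∂muM 2 F c χ t) ≤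
      2 * ((∫ q, wF F q t ^ 2 ∂muM 2 F c χ t) +
        R ^ 2 * (-t) * ∫ q, wF F q t ∂muM 2 F c χ t) := by
    rw [← integral_const_mul, ← integral_const_mul (R ^ 2 * (-t)),
      ← integral_add (hI t ht (fun q => wF F q t ^ 2) ((hcw t ht).pow 2))
        (hI t ht (fun q => R ^ 2 * (-t) * wF F q t) ((hcw t ht).const_mul _)),
      ← integral_const_mul]
    refine integral_mono (hI t ht _ (((hcH t ht).mul (hcw t ht)).const_mul _))
      (hI t ht _ ((((hcw t ht).pow 2).add ((hcw t ht).const_mul _)).const_mul _)) ?_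
    intro q
    show 4 * t ^ 2 * (‖HH (n := 2) F q t‖ ^ 2 * wF F q t) ≤
      2 * (wF F q t ^ 2 + R ^ 2 * (-t) * wF F q t)
    have := mul_le_mul_of_nonneg_right (hpt q) (hw0 q t)
    nlinarith
  have h2 := hMW N M F c χ hS t ht
  have hV := arith1_EV ht1 hIw hIg hIV h1 h2 he
  have hθ : (∫ q, (thF 2 F q t * wF F q t - 2 * g1F F q t) ∂muM 2 F c χ t) ≤
      (∫ q, ‖HH (n := 2) F q t‖ ^ 2 * wF F q t ∂muM 2 F c χ t) -
        2 * ∫ q, g1F F q t ∂muM 2 F c χ t := by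
    rw [integral_sub (hI t ht (fun q => thF 2 F q t * wF F q t) ((hcθ t ht).mul (hcw t ht)))
      (hI t ht (fun q => 2 * g1F F q t) ((hcg t ht).const_mul 2)), integral_const_mul]
    have h3 : (∫ q, thF 2 F q t * wF F q t ∂muM 2 F c χ t) ≤
        ∫ q, ‖HH (n := 2) F q t‖ ^ 2 * wF F q t ∂muM 2 F c χ t := by
      refine integral_mono (hI t ht _ ((hcθ t ht).mul (hcw t ht)))
        (hI t ht _ ((hcH t ht).mul (hcw t ht))) ?_
      intro q
      refine mul_le_mul_of_nonneg_right ?_ (hw0 q t)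
      have := hpin q t ht
      show 2 * AA (n := 2) F q t - ‖HH (n := 2) F q t‖ ^ 2 ≤ ‖HH (n := 2) F q t‖ ^ 2
      linarith
    linarith
  have hR2 : 0 ≤ R ^ 2 * ((∫ q, wF F q t ∂muM 2 F c χ t) / (-t)) := by positivity
  have hex : (∫ q, wF F q t ∂muM 2 F c χ t) / t ^ 2 / (-t) =
      (∫ q, wF F q t ∂muM 2 F c χ t) / (-t) / t ^ 2 := div_right_comm _ _ _
  constructor
  · show (∫ q, ‖HH (n := 2) F q t‖ ^ 2 * wF F q t ∂muM 2 F c χ t) / t ^ 2 ≤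
      (∫ q, g1F F q t ∂muM 2 F c χ t) / t ^ 2 +
        R ^ 2 * ((∫ q, wF F q t ∂muM 2 F c χ t) / t ^ 2 / (-t))
    rw [hex, ← mul_div_assoc, ← add_div]
    apply div_le_div_of_nonneg_right _ ht2.le
    linarith
  · show (∫ q, (thF 2 F q t * wF F q t - 2 * g1F F q t) ∂muM 2 F c χ t) / t ^ 2
          - 2 * (∫ q, wF F q t ∂muM 2 F c χ t) / t ^ 3 ≤
      -((∫ q, g1F F q t ∂muM 2 F c χ t) / t ^ 2) +
        (2 + R ^ 2) * ((∫ q, wF F q t ∂muM 2 F c χ t) / t ^ 2 / (-t))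
    exact arith2_EV ht1 hIw hIg hθ hV

end Pool.Agent.Helper89.CL
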