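import Pool.Agent.Helper35.CL.StA

/-!
# Project CL (MP_b2fa09_gt): module AE (area and mean curvature bounds)
-/

set_option autoImplicit false

namespace Helper89.CL

open Pool.Agent.Helper35.CL Helper32.CL Helper35.PI Helper35.PI2
open scoped ContDiff Manifold Topology ENNReal BigOperators
open MeasureTheory Set Filter

private lemma slice_AE {M V : Type} [TopologicalSpace M] [TopologicalSpace V] {g : M → ℝ → V}
    (hg : CST g) {t : ℝ} (ht : t < 0) : Continuous fun q => g q t := by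
  have h1 : ContinuousOn (fun z : M × ℝ => g z.1 z.2) (univ ×ˢ Iio 0) := hg
  have h2 : Continuous fun q : M => (q, t) := by fun_prop
  exact h1.comp_continuous h2 fun q => ⟨mem_univ _, ht⟩

theorem hAE (hEN : StEN) (hTD : StTD) (hMU : StMU) (hCN : StCN) : StAE := by
  intro N M _ _ _ _ _ _ _ F c χ hS c₀ hc₀ hpin
  obtain ⟨_, hH, hA, _⟩ := hCN N M F hS.mcf
  obtain ⟨s, _, hs⟩ := hMU 2 N M F c χ hS
  have hHc : ∀ t : ℝ, t < 0 → Continuous fun q => ‖HH (n := 2) F q t‖ ^ 2 := fun t ht =>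
    ((slice_AE hH ht).norm).pow 2
  have hAc : ∀ t : ℝ, t < 0 → Continuous fun q => AA (n := 2) F q t := fun t ht => slice_AE hA ht
  have hHi : ∀ t : ℝ, t < 0 → Integrable (fun q => ‖HH (n := 2) F q t‖ ^ 2) (muM 2 F c χ t) :=
    fun t ht => ((hs t ht).2.2 _ (hHc t ht)).1
  have hAi : ∀ t : ℝ, t < 0 → Integrable (fun q => AA (n := 2) F q t) (muM 2 F c χ t) :=
    fun t ht => ((hs t ht).2.2 _ (hAc t ht)).1
  set EE0 : ℝ := ∫ q, (‖HH (n := 2) F q (-1)‖ ^ 2 - AA (n := 2) F q (-1)) ∂(muM 2 F c χ (-1)) with hE0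
  set W : ℝ := EE0 / (1 - c₀) with hW
  have h1c : 0 < 1 - c₀ := by linarith
  have hHW : ∀ t : ℝ, t < 0 → (∫ q, ‖HH (n := 2) F q t‖ ^ 2 ∂(muM 2 F c χ t)) ≤ W := by
    intro t ht
    rw [hW, le_div_iff₀ h1c, mul_comm]
    rw [← integral_const_mul, hE0, hEN N M F c χ hS (-1) t (by norm_num) ht]
    refine integral_mono ((hHi t ht).const_mul _) ((hHi t ht).sub (hAi t ht)) ?_
    intro q
    have := hpin q t ht
    simp only
    linarith
  have hH0 : ∀ t : ℝ, 0 ≤ ∫ q, ‖HH (n := 2) F q t‖ ^ 2 ∂(muM 2 F c χ t) := fun t =>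
    integral_nonneg fun q => by positivity
  have hW0 : 0 ≤ W := (hH0 (-1)).trans (hHW (-1) (by norm_num))
  have hder : ∀ t : ℝ, t < 0 → HasDerivAt (fun t => ∫ q, (1 : ℝ) ∂(muM 2 F c χ t))
      (∫ q, ((0 : ℝ) - ‖HH (n := 2) F q t‖ ^ 2 * 1) ∂(muM 2 F c χ t)) t := by
    intro t ht
    exact (hTD 2 N M F c χ hS).2 (fun _ _ => 1) (fun _ _ => 0) continuousOn_const
      continuousOn_const (fun q t _ => hasDerivAt_const t 1) t ht
  have harea : ∀ t : ℝ, (∫ q, (1 : ℝ) ∂(muM 2 F c χ t)) = (muM 2 F c χ t).real univ := by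
    intro t
    simp
  have hder' : ∀ t : ℝ, t < 0 → HasDerivAt (fun t => (∫ q, (1 : ℝ) ∂(muM 2 F c χ t)) + W * t)
      (-(∫ q, ‖HH (n := 2) F q t‖ ^ 2 ∂(muM 2 F c χ t)) + W) t := by
    intro t ht
    have h1 := (hder t ht).add ((hasDerivAt_id t).const_mul W)
    have h2 : (∫ q, ((0 : ℝ) - ‖HH (n := 2) F q t‖ ^ 2 * 1) ∂(muM 2 F c χ t)) =
        -(∫ q, ‖HH (n := 2) F q t‖ ^ 2 ∂(muM 2 F c χ t)) := by
      simp only [mul_one, zero_sub, integral_neg]
    rw [h2, mul_one] at h1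
    exact h1
  have hmono : MonotoneOn (fun t => (∫ q, (1 : ℝ) ∂(muM 2 F c χ t)) + W * t) (Iio 0) := by
    apply monotoneOn_of_deriv_nonneg (convex_Iio 0)
    · intro t ht
      exact (hder' t ht).continuousAt.continuousWithinAt
    · intro t ht
      rw [interior_Iio] at ht
      exact (hder' t ht).differentiableAt.differentiableWithinAt
    · intro t ht
      rw [interior_Iio] at ht
      rw [(hder' t ht).deriv]
      have := hHW t ht
      linarith
  have ha0 : 0 ≤ (muM 2 F c χ (-1)).real univ := measureReal_nonneg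
  refine ⟨(muM 2 F c χ (-1)).real univ + W + 1, by linarith, ?_⟩
  intro t ht
  refine ⟨(hHW t (by linarith)).trans (by linarith), ?_⟩
  have h1 := hmono (show t ∈ Iio (0 : ℝ) by show t < 0; linarith)
    (show (-1 : ℝ) ∈ Iio (0 : ℝ) by show (-1 : ℝ) < 0; norm_num) ht
  simp only [harea] at h1
  nlinarith

end Helper89.CL
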