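import Pool.Agent.Helper26.CL.St

/-! # Project CM (MP_65faa7), module NF2: upper bound for the number of pairs joined through a face -/

set_option autoImplicit false

open scoped BigOperators ENNReal Topology
open Pool.LE Pool.NL Filter

namespace Pool.CN

namespace NF2M

theorem rf_same {d : ℕ} (i : Fin d) (a : ℤ) (x : Zd d) : rfl' i a x i = a - x i := by
  simp [rfl']

theorem rf_rf {d : ℕ} (i : Fin d) (a : ℤ) (x : Zd d) : rfl' i a (rfl' i a x) = x := by
  funext k
  by_cases hk : k = i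
  · subst hk
    simp [rfl']
  · simp [rfl', hk]

/-- the reflection as an equivalence -/
def rfE {d : ℕ} (i : Fin d) (a : ℤ) : Zd d ≃ Zd d where
  toFun := rfl' i a
  invFun := rfl' i a
  left_inv := rf_rf i a
  right_inv := rf_rf i a

theorem rf_add {d : ℕ} (i : Fin d) (a : ℤ) (x : Zd d) (j : Fin d) (c : ℤ) :
    rfl' i a (x + Pi.single j c) = rfl' i a x + Pi.single j (if j = i then -c else c) := by
  funext k
  by_cases hk : k = i
  · subst hk
    by_cases hj : j = k
    · subst hj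
      simp [rfl']
      ring
    · simp [rfl', hj]
  · by_cases hj : j = i
    · subst hj
      simp [rfl', hk]
    · simp [rfl', hk, hj]

theorem rf_nb (hBox : StBox) {d : ℕ} (i : Fin d) (a : ℤ) (x b : Zd d) (h : b ∈ nb x) :
    rfl' i a b ∈ nb (rfl' i a x) := by
  obtain ⟨-, -, h3, -⟩ := hBox d
  rw [h3] at h ⊢
  obtain ⟨j, hj⟩ := h
  refine ⟨j, ?_⟩
  by_cases hji : j = i
  · rcases hj with hj | hj
    · right
      rw [hj, rf_add, if_pos hji, Pi.single_neg, sub_eq_add_neg]
    · left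
      rw [hj, sub_eq_add_neg, ← Pi.single_neg, rf_add, if_pos hji, neg_neg]
  · rcases hj with hj | hj
    · left
      rw [hj, rf_add, if_neg hji]
    · right
      rw [hj, sub_eq_add_neg, ← Pi.single_neg, rf_add, if_neg hji, Pi.single_neg, sub_eq_add_neg]

theorem es_map (hBox : StBox) {d : ℕ} (i : Fin d) (a : ℤ) (S : Finset (Zd d)) :
    ES (S.image (rfl' i a)) = mpE (rfE i a) (ES S) := by
  obtain ⟨-, -, -, -, -, -, -, h8, -⟩ := hBox d
  ext e
  induction e with
  | h u v =>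
    rw [h8]
    unfold mpE
    rw [Finset.mem_map]
    constructor
    · rintro ⟨hu, hv, huv⟩
      rw [Finset.mem_image] at hu hv
      obtain ⟨x, hx, rfl⟩ := hu
      obtain ⟨y, hy, rfl⟩ := hv
      refine ⟨s(x, y), ?_, rfl⟩
      rw [h8]
      refine ⟨hx, hy, ?_⟩
      have := rf_nb hBox i a _ _ huv
      rwa [rf_rf, rf_rf] at this
    · rintro ⟨e, he, hee⟩
      induction e with
      | h x y =>
        rw [h8] at he
        obtain ⟨hx, hy, hxy⟩ := he
        have h1 : s(rfl' i a x, rfl' i a y) = s(u, v) := hee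
        have h2 : s(rfl' i a x, rfl' i a y) ∈ ES (S.image (rfl' i a)) := by
          rw [h8]
          exact ⟨Finset.mem_image_of_mem _ hx, Finset.mem_image_of_mem _ hy, rf_nb hBox i a _ _ hxy⟩
        rw [h1, h8] at h2
        exact h2

theorem con_mono {V : Type} [DecidableEq V] {ω η : Finset (Sym2 V)} (h : ω ⊆ η) {x y : V}
    (hc : con ω x y) : con η x y := by
  unfold con gr at hc ⊢
  exact hc.mono (SimpleGraph.fromEdgeSet_mono (by exact_mod_cast h))

theorem con_edge {V : Type} [DecidableEq V] {ω : Finset (Sym2 V)} {x y : V} (h : s(x, y) ∈ ω)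
    (hxy : x ≠ y) : con ω x y := by
  unfold con gr
  refine SimpleGraph.Adj.reachable ?_
  rw [SimpleGraph.fromEdgeSet_adj]
  exact ⟨by exact_mod_cast h, hxy⟩

theorem con_trans {V : Type} [DecidableEq V] {ω : Finset (Sym2 V)} {x y z : V} (h : con ω x y)
    (h' : con ω y z) : con ω x z := SimpleGraph.Reachable.trans h h'

theorem con_symm {V : Type} [DecidableEq V] {ω : Finset (Sym2 V)} {x y : V} (h : con ω x y) :
    con ω y x := SimpleGraph.Reachable.symm h

theorem ind_nonneg (A : Prop) : 0 ≤ ind A := by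
  unfold ind
  split_ifs <;> norm_num

theorem ind_le_one (A : Prop) : ind A ≤ 1 := by
  unfold ind
  split_ifs <;> norm_num

theorem ind_pos {A : Prop} (h : A) : ind A = 1 := if_pos h

theorem ind_neg {A : Prop} (h : ¬ A) : ind A = 0 := if_neg h

theorem ind_sq (A : Prop) : ind A ^ 2 = ind A := by
  unfold ind
  split_ifs <;> norm_num

theorem xc_eq {V : Type} [DecidableEq V] (L : Finset V) (ω : Finset (Sym2 V)) (x : V) :
    (Xc L ω x : ℝ) = ∑ y ∈ L, ind (con ω x y) := by
  classical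
  unfold Xc clu
  rw [Finset.card_filter]
  push_cast
  refine Finset.sum_congr rfl fun y _ => ?_
  unfold ind
  split_ifs <;> rfl

theorem xc_pair {V : Type} [DecidableEq V] (L : Finset V) (ω : Finset (Sym2 V)) (x x' : V) :
    ∑ y ∈ L, ind (con ω x y) * ind (con ω x' y) = (Xc L ω x : ℝ) * ind (con ω x x') := by
  rw [xc_eq, Finset.sum_mul]
  refine Finset.sum_congr rfl fun y _ => ?_
  by_cases h : con ω x y
  · by_cases h' : con ω x' y
    · rw [ind_pos h, ind_pos h', ind_pos (con_trans h (con_symm h'))]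
    · have h2 : ¬ con ω x x' := fun h2 => h' (con_trans (con_symm h2) h)
      rw [ind_neg h', ind_neg h2]
  · rw [ind_neg h, zero_mul, zero_mul]

theorem xc_map (hMp : StMp) {V : Type} [DecidableEq V] (φ : V ≃ V) (f : V → V)
    (hf : ∀ x, φ x = f x) (L : Finset V) (ω : Finset (Sym2 V)) (x : V) :
    (Xc (L.image f) (mpE φ ω) (f x) : ℝ) = Xc L ω x := by
  obtain ⟨-, h2, -⟩ := hMp V φ ∅ 0
  rw [xc_eq, xc_eq, Finset.sum_image]
  · refine Finset.sum_congr rfl fun y _ => ?_
    have : con (mpE φ ω) (f x) (f y) ↔ con ω x y := by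
      rw [← hf, ← hf]
      exact h2 ω x y
    by_cases h : con ω x y
    · rw [ind_pos h, ind_pos (this.2 h)]
    · rw [ind_neg h, ind_neg (fun h' => h (this.1 h'))]
  · intro a _ b _ hab
    have : φ a = φ b := by rw [hf, hf]; exact hab
    exact φ.injective this

theorem ex_split (hUn : StUn) (hBasic : StBasic) {V : Type} [DecidableEq V]
    (E E₁ E₂ : Finset (Sym2 V)) (p : ℝ) (hp : 0 ≤ p) (hp1 : p ≤ 1) (h1 : E₁ ⊆ E) (h2 : E₂ ⊆ E)
    (h12 : Disjoint E₁ E₂) (g₁ g₂ : Finset (Sym2 V) → ℝ) :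
    ex E p (fun ω => g₁ (ω ∩ E₁) * g₂ (ω ∩ E₂)) = ex E₁ p g₁ * ex E₂ p g₂ := by
  have hE : E = (E₁ ∪ E₂) ∪ (E \ (E₁ ∪ E₂)) := by
    rw [Finset.union_sdiff_of_subset (Finset.union_subset h1 h2)]
  have hd : Disjoint (E₁ ∪ E₂) (E \ (E₁ ∪ E₂)) := Finset.disjoint_sdiff
  obtain ⟨-, ha⟩ := hUn V (E₁ ∪ E₂) (E \ (E₁ ∪ E₂)) p hd (fun _ => 0)
  obtain ⟨-, hb⟩ := hUn V E₁ E₂ p h12 (fun _ => 0)
  have h3 := ha (fun ω => g₁ (ω ∩ E₁) * g₂ (ω ∩ E₂)) (fun _ => 1)
  rw [← hE] at h3
  obtain ⟨-, hc, -⟩ := hBasic V (E \ (E₁ ∪ E₂)) p hp hp1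
  rw [hc 1, mul_one] at h3
  rw [← hb g₁ g₂, ← h3]
  have e1 : (E₁ ∪ E₂) ∩ E₁ = E₁ := Finset.inter_eq_right.2 Finset.subset_union_left
  have e2 : (E₁ ∪ E₂) ∩ E₂ = E₂ := Finset.inter_eq_right.2 Finset.subset_union_right
  refine congrArg (ex E p) (funext fun ω => ?_)
  rw [mul_one, Finset.inter_assoc, Finset.inter_assoc, e1, e2]

end NF2M

open NF2M

theorem hNF2 (hMp : StMp) (hUn : StUn) (hBasic : StBasic) (hBox : StBox) (hBn : StBn) :
    StNF2 := by
  classical
  intro d n p i hp hp1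
  obtain ⟨-, -, -, hBn4, -⟩ := hBn d n
  obtain ⟨-, -, h3, -, -, -, -, h8, -⟩ := hBox d
  set B := Bn d n with hB
  set f : Zd d → Zd d := rfl' i (-1) with hf
  set B' := B.image f with hB'
  set F := B.filter (fun x => x i = 0) with hF
  set E := ES B with hE
  set E' := ES B' with hE'
  set T := ES (B2 d n i) with hT
  have hBi : ∀ x ∈ B, 0 ≤ x i := fun x hx => ((hBn4 x).1 hx i).1
  have hB'i : ∀ x ∈ B', x i < 0 := by
    intro x hx
    rw [hB', Finset.mem_image] at hx
    obtain ⟨y, hy, rfl⟩ := hx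
    have h1 := hBi y hy
    have h2 : f y i = -1 - y i := rf_same i (-1) y
    omega
  have hET : E ⊆ T := by
    intro e he
    induction e with
    | h u v =>
      rw [hE, h8] at he
      rw [hT, h8]
      exact ⟨Finset.mem_union_left _ he.1, Finset.mem_union_left _ he.2.1, he.2.2⟩
  have hE'T : E' ⊆ T := by
    intro e he
    induction e with
    | h u v =>
      rw [hE', h8] at he
      rw [hT, h8]
      exact ⟨Finset.mem_union_right _ he.1, Finset.mem_union_right _ he.2.1, he.2.2⟩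
  have hdis : Disjoint E E' := by
    rw [Finset.disjoint_left]
    intro e he he'
    induction e with
    | h u v =>
      rw [hE, h8] at he
      rw [hE', h8] at he'
      have h1 := hBi u he.1
      have h2 := hB'i u he'.1
      omega
  obtain ⟨b1, b2, b3, b4, b5, b6, b7, b8, b9, b10⟩ := hBasic (Zd d) T p hp hp1
  -- the kernel
  set M : Finset (Sym2 (Zd d)) → Zd d × Zd d → ℝ := fun ω q =>
    ∑ x ∈ F, ind (s(x, f x) ∈ ω) * (ind (con (ω ∩ E) x q.1) * ind (con (ω ∩ E') (f x) q.2)) with hM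
  have hM0 : ∀ ω q, 0 ≤ M ω q := fun ω q => Finset.sum_nonneg fun x _ =>
    mul_nonneg (ind_nonneg _) (mul_nonneg (ind_nonneg _) (ind_nonneg _))
  have hNF : ∀ ω, NF d n i ω = ∑ q ∈ B ×ˢ B', ind (con ω q.1 q.2) * M ω q := by
    intro ω
    have h1 : ∀ q, ind (con ω q.1 q.2) * M ω q = M ω q := by
      intro q
      by_cases h : con ω q.1 q.2
      · rw [ind_pos h, one_mul]
      · rw [ind_neg h, zero_mul, hM]
        symm
        refine Finset.sum_eq_zero fun x hx => ?_
        by_cases e1 : s(x, f x) ∈ ω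
        · by_cases e2 : con (ω ∩ E) x q.1
          · by_cases e3 : con (ω ∩ E') (f x) q.2
            · exfalso
              apply h
              have hne : x ≠ f x := by
                intro h4
                have h5 : f x i = -1 - x i := rf_same i (-1) x
                rw [← h4] at h5
                omega
              exact con_trans (con_symm (con_mono Finset.inter_subset_left e2))
                (con_trans (con_edge e1 hne) (con_mono Finset.inter_subset_left e3))
            · rw [ind_neg e3, mul_zero, mul_zero]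
          · rw [ind_neg e2, zero_mul, mul_zero]
        · rw [ind_neg e1, zero_mul]
    rw [Finset.sum_congr rfl (fun q _ => h1 q), hM, Finset.sum_comm]
    unfold NF
    rw [← hB, ← hf, ← hB', ← hF, ← hE, ← hE']
    refine Finset.sum_congr rfl fun x _ => ?_
    rw [← Finset.mul_sum, xc_eq, xc_eq, Finset.sum_mul_sum, Finset.sum_product]
  have hsq : ∀ ω, ∑ q ∈ B ×ˢ B', M ω q ^ 2 ≤ ∑ x ∈ F, ∑ x' ∈ F,
      ((Xc B (ω ∩ E) x : ℝ) * ind (con (ω ∩ E) x x')) *
      ((Xc B' (ω ∩ E') (f x) : ℝ) * ind (con (ω ∩ E') (f x) (f x'))) := by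
    intro ω
    have h1 : ∀ q ∈ B ×ˢ B', M ω q ^ 2 ≤ ∑ x ∈ F, ∑ x' ∈ F,
        (ind (con (ω ∩ E) x q.1) * ind (con (ω ∩ E) x' q.1)) *
        (ind (con (ω ∩ E') (f x) q.2) * ind (con (ω ∩ E') (f x') q.2)) := by
      intro q _
      rw [hM, pow_two, Finset.sum_mul_sum]
      refine Finset.sum_le_sum fun x _ => Finset.sum_le_sum fun x' _ => ?_
      have e1 := ind_le_one (s(x, f x) ∈ ω)
      have e2 := ind_le_one (s(x', f x') ∈ ω)
      have e3 := ind_nonneg (s(x, f x) ∈ ω)
      have e4 := ind_nonneg (s(x', f x') ∈ ω)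
      have e5 : 0 ≤ ind (con (ω ∩ E) x q.1) * ind (con (ω ∩ E) x' q.1) *
        (ind (con (ω ∩ E') (f x) q.2) * ind (con (ω ∩ E') (f x') q.2)) :=
        mul_nonneg (mul_nonneg (ind_nonneg _) (ind_nonneg _))
          (mul_nonneg (ind_nonneg _) (ind_nonneg _))
      calc ind (s(x, f x) ∈ ω) * (ind (con (ω ∩ E) x q.1) * ind (con (ω ∩ E') (f x) q.2)) *
            (ind (s(x', f x') ∈ ω) * (ind (con (ω ∩ E) x' q.1) * ind (con (ω ∩ E') (f x') q.2)))
          = (ind (s(x, f x) ∈ ω) * ind (s(x', f x') ∈ ω)) *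
            (ind (con (ω ∩ E) x q.1) * ind (con (ω ∩ E) x' q.1) *
            (ind (con (ω ∩ E') (f x) q.2) * ind (con (ω ∩ E') (f x') q.2))) := by ring
        _ ≤ 1 * (ind (con (ω ∩ E) x q.1) * ind (con (ω ∩ E) x' q.1) *
            (ind (con (ω ∩ E') (f x) q.2) * ind (con (ω ∩ E') (f x') q.2))) := by
            refine mul_le_mul_of_nonneg_right ?_ e5
            exact mul_le_one₀ e1 e4 e2
        _ = _ := one_mul _
    refine (Finset.sum_le_sum h1).trans (le_of_eq ?_)
    rw [Finset.sum_comm]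
    refine Finset.sum_congr rfl fun x _ => ?_
    rw [Finset.sum_comm]
    refine Finset.sum_congr rfl fun x' _ => ?_
    rw [Finset.sum_product, ← xc_pair, ← xc_pair, Finset.sum_mul_sum]
  -- expectations
  have hexN : ex T p (NF d n i) = ∑ q ∈ B ×ˢ B', ex T p (fun ω => ind (con ω q.1 q.2) * M ω q) := by
    rw [← b6]
    exact congrArg (ex T p) (funext hNF)
  have hexM : ∑ q ∈ B ×ˢ B', ex T p (fun ω => M ω q ^ 2) ≤ ∑ x ∈ F, ∑ x' ∈ F,
      (ex E p (fun ω => (Xc B ω x : ℝ) * ind (con ω x x'))) ^ 2 := by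
    rw [← b6]
    refine (b1 _ _ (fun ω _ => hsq ω)).trans (le_of_eq ?_)
    rw [b6]
    refine Finset.sum_congr rfl fun x _ => ?_
    rw [b6]
    refine Finset.sum_congr rfl fun x' _ => ?_
    rw [ex_split hUn hBasic T E E' p hp hp1 hET hE'T hdis
      (fun ω => (Xc B ω x : ℝ) * ind (con ω x x'))
      (fun ω => (Xc B' ω (f x) : ℝ) * ind (con ω (f x) (f x'))), pow_two]
    have hE'2 : E' = mpE (rfE i (-1)) E := es_map hBox i (-1) B
    obtain ⟨m1, m2, -⟩ := hMp (Zd d) (rfE i (-1)) E p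
    have hkey : ex E' p (fun ω => (Xc B' ω (f x) : ℝ) * ind (con ω (f x) (f x'))) =
        ex E p (fun ω => (Xc B ω x : ℝ) * ind (con ω x x')) := by
      rw [hE'2, m1]
      refine congrArg (ex E p) (funext fun ω => ?_)
      rw [hB', xc_map hMp (rfE i (-1)) f (fun _ => rfl) B ω x]
      have h5 : con (mpE (rfE i (-1)) ω) (f x) (f x') ↔ con ω x x' := m2 ω x x'
      by_cases h : con ω x x'
      · rw [ind_pos h, ind_pos (h5.2 h)]
      · rw [ind_neg h, ind_neg (fun h' => h (h5.1 h'))]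
    rw [hkey]
  have hcs : (∑ q ∈ B ×ˢ B', ex T p (fun ω => ind (con ω q.1 q.2) * M ω q)) ^ 2 ≤
      (∑ q ∈ B ×ˢ B', cp T p q.1 q.2) * ∑ q ∈ B ×ˢ B', ex T p (fun ω => M ω q ^ 2) := by
    refine Finset.sum_sq_le_sum_mul_sum_of_sq_le_mul _ (fun q _ => (b7 _).1) ?_ ?_
    · intro q _
      have h0 := b1 (fun _ => 0) (fun ω => M ω q ^ 2) (fun ω _ => sq_nonneg _)
      rwa [b2] at h0
    · intro q _
      refine (b9 (fun ω => ind (con ω q.1 q.2)) (fun ω => M ω q)).trans (le_of_eq ?_)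
      have : (fun ω : Finset (Sym2 (Zd d)) => ind (con ω q.1 q.2) ^ 2) =
          fun ω => ind (con ω q.1 q.2) := funext fun ω => ind_sq _
      rw [this]
      rfl
  rw [hexN]
  refine hcs.trans ?_
  rw [Finset.sum_product]
  refine mul_le_mul_of_nonneg_left hexM ?_
  exact Finset.sum_nonneg fun y _ => Finset.sum_nonneg fun z _ => (b7 _).1

end Pool.CN
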